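import Pool.Agent.Y793.Dy.Stm2

set_option autoImplicit false

namespace Pool.Agent.Y86.Dy

open Finset
open Pool.Agent.Helper352.Bed Pool.Agent.Y793.Dy

lemma bits (C : ℕ) (hC : 0 < C) (m : ℕ) :
    ∃ U : Finset ℕ, (∀ x ∈ U, ∃ i, x = C * 2 ^ i) ∧ ∑ x ∈ U, x = C * m := by
  obtain ⟨T, _, hT⟩ := exists_bits m m Nat.lt_two_pow_self
  refine ⟨T.image fun i => C * 2 ^ i, fun x hx => ?_, ?_⟩
  · obtain ⟨i, _, rfl⟩ := mem_image.mp hx
    exact ⟨i, rfl⟩
  · rw [sum_image, ← mul_sum, hT]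
    intro i _ j _ h
    exact Nat.pow_right_injective le_rfl (Nat.eq_of_mul_eq_mul_left hC h)

lemma frob (A B N : ℕ) (hA : 0 < A) (hB : 0 < B) (hN : Nat.gcd A B ∣ N) (h : A * B ≤ N) :
    ∃ m m' : ℕ, N = A * m + B * m' := by
  obtain ⟨g, a, b, hg, hab, rfl, rfl⟩ := Nat.exists_coprime' (Nat.gcd_pos_of_pos_left B hA)
  have hg' : Nat.gcd (a * g) (b * g) = g := by
    rw [Nat.gcd_mul_right, hab.gcd_eq_one, one_mul]
  rw [hg'] at hN
  obtain ⟨N', rfl⟩ := hN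
  have ha : 0 < a := Nat.pos_of_mul_pos_right hA
  have hb : 0 < b := Nat.pos_of_mul_pos_right hB
  have h1 : a * b ≤ N' := by
    have h2 : g * (a * b) ≤ g * N' := by
      calc g * (a * b) = 1 * (g * (a * b)) := (one_mul _).symm
        _ ≤ g * (g * (a * b)) := Nat.mul_le_mul_right _ hg
        _ = a * g * (b * g) := by ring
        _ ≤ g * N' := h
    exact Nat.le_of_mul_le_mul_left h2 hg
  have hx := (Nat.chineseRemainder hab 0 N').2
  have hlt := Nat.chineseRemainder_lt_mul hab 0 N' ha.ne' hb.ne'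
  set x : ℕ := (Nat.chineseRemainder hab 0 N' : ℕ) with hxd
  obtain ⟨m, hm⟩ := (Nat.modEq_zero_iff_dvd.mp hx.1)
  have hle : x ≤ N' := by omega
  obtain ⟨m', hm'⟩ := (Nat.modEq_iff_dvd' hle).mp hx.2
  refine ⟨m, m', ?_⟩
  have : N' = a * m + b * m' := by omega
  rw [this]
  ring

theorem t_DYA : S_DYA := by
  intro α β k l A B hα hβ hA hB hr
  set P : ℕ → Prop := fun x => 0 < x ∧
    ((∃ k : ℕ, x = ⌊(2 : ℝ) ^ k * α⌋₊) ∨ (∃ k : ℕ, x = ⌊(2 : ℝ) ^ k * β⌋₊)) with hP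
  have hA0 : 0 < A := by
    have : (0 : ℝ) < A := by rw [← hA]; positivity
    exact_mod_cast this
  have hB0 : 0 < B := by
    have : (0 : ℝ) < B := by rw [← hB]; positivity
    exact_mod_cast this
  have hPA : ∀ i, P (A * 2 ^ i) := by
    intro i
    refine ⟨by positivity, Or.inl ⟨i + k, ?_⟩⟩
    rw [pow_add, mul_assoc, hA]
    have : (2 : ℝ) ^ i * (A : ℝ) = ((A * 2 ^ i : ℕ) : ℝ) := by push_cast; ring
    rw [this, Nat.floor_natCast]
  have hPB : ∀ i, P (B * 2 ^ i) := by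
    intro i
    refine ⟨by positivity, Or.inr ⟨i + l, ?_⟩⟩
    rw [pow_add, mul_assoc, hB]
    have : (2 : ℝ) ^ i * (B : ℝ) = ((B * 2 ^ i : ℕ) : ℝ) := by push_cast; ring
    rw [this, Nat.floor_natCast]
  set g := Nat.gcd A B with hg
  have hg0 : 0 < g := Nat.gcd_pos_of_pos_left B hA0
  have hr' : ∀ r : ℕ, ∃ t : Finset ℕ, (∀ x ∈ t, P x ∧ ¬ g ∣ x) ∧ (∑ x ∈ t, x) % g = r % g := by
    intro r
    obtain ⟨s, hs, hsum⟩ := hr r
    refine ⟨s.filter fun x => ¬ g ∣ x, fun x hx => ?_, ?_⟩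
    · rw [mem_filter] at hx
      exact ⟨hs x hx.1, hx.2⟩
    · rw [← hsum, ← sum_filter_add_sum_filter_not s (fun x => g ∣ x)]
      obtain ⟨c, hc⟩ : g ∣ ∑ x ∈ s.filter (fun x => g ∣ x), x :=
        dvd_sum fun x hx => (mem_filter.mp hx).2
      rw [hc, Nat.mul_add_mod]
  choose t ht hts using hr'
  refine ⟨∑ r ∈ range g, (∑ x ∈ t r, x) + A * B, fun n hn => ?_⟩
  set S := ∑ x ∈ t (n % g), x with hS
  have hSle : S ≤ ∑ r ∈ range g, (∑ x ∈ t r, x) :=
    single_le_sum (f := fun r => ∑ x ∈ t r, x) (fun _ _ => Nat.zero_le _)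
      (mem_range.mpr (Nat.mod_lt n hg0))
  have hSn : S ≤ n := by omega
  have hdvd : g ∣ n - S := by
    refine (Nat.modEq_iff_dvd' hSn).mp ?_
    unfold Nat.ModEq
    rw [hts, Nat.mod_mod]
  have hN : A * B ≤ n - S := by omega
  have hdis : ∀ U : Finset ℕ, (∀ x ∈ U, g ∣ x) → Disjoint (t (n % g)) U := by
    intro U hU
    rw [disjoint_left]
    intro x hx hxU
    exact (ht _ x hx).2 (hU x hxU)
  have fin : ∀ U : Finset ℕ, (∀ x ∈ U, P x ∧ g ∣ x) → ∑ x ∈ U, x = n - S →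
      ∃ s : Finset ℕ, (∀ x ∈ s, P x) ∧ ∑ x ∈ s, x = n := by
    intro U hU hsum
    refine ⟨t (n % g) ∪ U, fun x hx => ?_, ?_⟩
    · rcases mem_union.mp hx with h | h
      · exact (ht _ x h).1
      · exact (hU x h).1
    · rw [sum_union (hdis U fun x hx => (hU x hx).2), hsum]
      omega
  have hgA : g ∣ A := Nat.gcd_dvd_left A B
  have hgB : g ∣ B := Nat.gcd_dvd_right A B
  by_cases hcase : ∀ i j, A * 2 ^ i ≠ B * 2 ^ j
  · obtain ⟨m, m', hmm⟩ := frob A B (n - S) hA0 hB0 hdvd hN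
    obtain ⟨U₁, hU₁, hs₁⟩ := bits A hA0 m
    obtain ⟨U₂, hU₂, hs₂⟩ := bits B hB0 m'
    refine fin (U₁ ∪ U₂) (fun x hx => ?_) ?_
    · rcases mem_union.mp hx with h | h
      · obtain ⟨i, rfl⟩ := hU₁ x h
        exact ⟨hPA i, hgA.mul_right _⟩
      · obtain ⟨i, rfl⟩ := hU₂ x h
        exact ⟨hPB i, hgB.mul_right _⟩
    · rw [sum_union, hs₁, hs₂, hmm]
      rw [disjoint_left]
      intro x h1 h2
      obtain ⟨i, hi⟩ := hU₁ x h1
      obtain ⟨j, hj⟩ := hU₂ x h2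
      exact hcase i j (hi.symm.trans hj)
  · push Not at hcase
    obtain ⟨i, j, hij⟩ := hcase
    rcases le_total i j with h | h
    · have hAB : A = B * 2 ^ (j - i) := by
        have h1 : A * 2 ^ i = B * 2 ^ (j - i) * 2 ^ i := by
          rw [hij, mul_assoc, ← pow_add, Nat.sub_add_cancel h]
        exact Nat.eq_of_mul_eq_mul_right (by positivity) h1
      have hgB' : g = B := by
        rw [hg, hAB]
        exact Nat.gcd_eq_right (Dvd.intro _ rfl)
      obtain ⟨m, hm⟩ := hdvd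
      rw [hgB'] at hm
      obtain ⟨U, hU, hs⟩ := bits B hB0 m
      refine fin U (fun x hx => ?_) (by rw [hs, hm])
      obtain ⟨i, rfl⟩ := hU x hx
      exact ⟨hPB i, hgB.mul_right _⟩
    · have hAB : B = A * 2 ^ (i - j) := by
        have h1 : B * 2 ^ j = A * 2 ^ (i - j) * 2 ^ j := by
          rw [← hij, mul_assoc, ← pow_add, Nat.sub_add_cancel h]
        exact Nat.eq_of_mul_eq_mul_right (by positivity) h1
      have hgA' : g = A := by
        rw [hg, hAB]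
        exact Nat.gcd_eq_left (Dvd.intro _ rfl)
      obtain ⟨m, hm⟩ := hdvd
      rw [hgA'] at hm
      obtain ⟨U, hU, hs⟩ := bits A hA0 m
      refine fin U (fun x hx => ?_) (by rw [hs, hm])
      obtain ⟨i, rfl⟩ := hU x hx
      exact ⟨hPA i, hgA.mul_right _⟩

end Pool.Agent.Y86.Dy
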